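import Pool.Agent.Y274.Sg2

set_option autoImplicit false

namespace Pool.Agent.Results.MP_080bf7_an.SubgaussianIff

open MeasureTheory

/-- The compact group `(ℤ/mℤ)^ℕ`. -/
abbrev G (m : ℕ) := ℕ → ZMod m

/-- The dual group of `G m`: the finitely supported sequences `n = (n_k)`. -/
abbrev Dual (m : ℕ) := ℕ →₀ ZMod m

/-- The normalised Haar measure of `G m`. -/
noncomputable def haar (m : ℕ) [NeZero m] : Measure (G m) :=
  Measure.addHaarMeasure (⊤ : TopologicalSpace.PositiveCompacts (G m))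

/-- The character `γ_n(t) = exp (2πi ∑ t_k n_k / m)`. -/
noncomputable def char (m : ℕ) (n : Dual m) (t : G m) : ℂ :=
  Complex.exp (2 * Real.pi * Complex.I *
    (∑ k ∈ n.support, ((t k).val : ℂ) * ((n k).val : ℂ)) / m)

/-- `‖f‖_{ψ₂} = inf {c > 0 : ∫ exp (|f|² / c²) dm_G ≤ e}`. -/
noncomputable def psi2 (m : ℕ) [NeZero m] (f : G m → ℂ) : ℝ :=
  sInf {c : ℝ | 0 < c ∧ ∫⁻ t, ENNReal.ofReal (Real.exp (‖f t‖ ^ 2 / c ^ 2)) ∂(haar m) ≤
    ENNReal.ofReal (Real.exp 1)}

/-- `Λ` is subgaussian: `‖∑ a_n γ_n‖_{ψ₂} ≤ C (∑ |a_n|²)^{1/2}` for all finitely supported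
families of complex coefficients on `Λ`. -/
def Subgaussian (m : ℕ) [NeZero m] (Λ : Set (Dual m)) : Prop :=
  ∃ C : ℝ, ∀ (A : Finset (Dual m)) (a : Dual m → ℂ), (A : Set (Dual m)) ⊆ Λ →
    psi2 m (fun t => ∑ n ∈ A, a n * char m n t) ≤ C * Real.sqrt (∑ n ∈ A, ‖a n‖ ^ 2)

/-- `Λ` is quasi-independent: a relation `∑ ξ_n n = 0` over a finite subset of `Λ`, with
`ξ_n ∈ {-1, 0, 1}`, is trivial. -/
def QuasiIndependent (m : ℕ) (Λ : Set (Dual m)) : Prop :=
  ∀ A : Finset (Dual m), (A : Set (Dual m)) ⊆ Λ → ∀ ξ : Dual m → ℤ,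
    (∀ n ∈ A, ξ n = -1 ∨ ξ n = 0 ∨ ξ n = 1) → ∑ n ∈ A, ξ n • n = 0 → ∀ n ∈ A, ξ n = 0

theorem char_eq (m : ℕ) [NeZero m] (n : Dual m) (t : G m) :
    char m n t = ZMod.stdAddChar (n.sum fun k x => t k * x) := by
  have h := ZMod.stdAddChar_coe (N := m) (∑ k ∈ n.support, ((t k).val : ℤ) * ((n k).val : ℤ))
  have h1 : ((∑ k ∈ n.support, ((t k).val : ℤ) * ((n k).val : ℤ) : ℤ) : ZMod m) =
      n.sum fun k x => t k * x := by
    rw [Finsupp.sum]
    push_cast
    refine Finset.sum_congr rfl fun k _ => ?_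
    rw [ZMod.natCast_zmod_val, ZMod.natCast_zmod_val]
  rw [← h1, h, char]
  push_cast
  rfl

instance (m : ℕ) [NeZero m] : IsProbabilityMeasure (haar m) := by
  constructor
  have := Measure.addHaarMeasure_self (K₀ := (⊤ : TopologicalSpace.PositiveCompacts (G m)))
  simpa [haar] using this

instance (m : ℕ) [NeZero m] : (haar m).IsAddHaarMeasure := by
  unfold haar; infer_instance

theorem sys (m : ℕ) [NeZero m] : Pool.Agent.Y274.Sg.Sys (haar m) (char m) where
  zero := fun t => by simp [char_eq]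
  add := fun n n' t => by
    rw [char_eq, char_eq, char_eq, ← AddChar.map_add_eq_mul]
    congr 1
    exact Finsupp.sum_add_index' (fun k => mul_zero _) (fun k x y => mul_add _ _ _)
  nrm := fun n t => by
    rw [char_eq, ZMod.stdAddChar_apply, Circle.norm_coe]
  meas := fun n => by
    have h : char m n = fun t => ZMod.stdAddChar (n.sum fun k x => t k * x) :=
      funext fun t => char_eq m n t
    rw [h]
    refine (measurable_of_countable _).comp ?_
    unfold Finsupp.sum
    exact Finset.measurable_fun_sum _ fun k _ => (measurable_pi_apply k).mul_const _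
  int := fun n hn => by
    obtain ⟨k, hk⟩ : ∃ k, n k ≠ 0 := by
      by_contra h
      push Not at h
      exact hn (Finsupp.ext h)
    have hadd : ∀ s t : G m, char m n (s + t) = char m n s * char m n t := by
      intro s t
      rw [char_eq, char_eq, char_eq, ← AddChar.map_add_eq_mul]
      congr 1
      rw [← Finsupp.sum_add]
      exact Finset.sum_congr rfl fun k _ => add_mul _ _ _
    have h1 : ∫ t, char m n (Pi.single k 1 + t) ∂(haar m) = ∫ t, char m n t ∂(haar m) :=
      integral_add_left_eq_self (μ := haar m) (fun t => char m n t) (Pi.single k 1)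
    simp only [hadd] at h1
    rw [integral_const_mul] at h1
    have h2 : char m n (Pi.single k 1) ≠ 1 := by
      rw [char_eq]
      have h3 : (n.sum fun j x => (Pi.single k 1 : G m) j * x) = n k := by
        rw [Finsupp.sum, Finset.sum_eq_single k]
        · simp
        · intro j _ hj
          rw [Pi.single_eq_of_ne hj, zero_mul]
        · intro h
          rw [Finsupp.notMem_support_iff.mp h, mul_zero]
      rw [h3]
      intro h
      have h4 : ZMod.stdAddChar (n k) = ZMod.stdAddChar (0 : ZMod m) := by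
        rw [h, AddChar.map_zero_eq_one]
      exact hk (ZMod.injective_stdAddChar h4)
    have h3 : (char m n (Pi.single k 1) - 1) * ∫ t, char m n t ∂(haar m) = 0 := by
      rw [sub_mul, one_mul, h1, sub_self]
    exact (mul_eq_zero.mp h3).resolve_left (sub_ne_zero.mpr h2)

/-- For every `m ≥ 1` (in particular `m = 4`) a set of nonzero characters of `(ℤ/mℤ)^ℕ` is
subgaussian if and only if it is a finite union of quasi-independent sets. -/
theorem result (m : ℕ) [NeZero m] (Λ : Set (Dual m)) (h0 : (0 : Dual m) ∉ Λ) :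
    Subgaussian m Λ ↔
      ∃ (k : ℕ) (Q : Fin k → Set (Dual m)), (∀ i, QuasiIndependent m (Q i)) ∧ Λ = ⋃ i, Q i := by
  classical
  have hexp : ∀ x : Dual m, m • x = 0 := by
    intro x
    ext k
    rw [Finsupp.smul_apply, nsmul_eq_mul, ZMod.natCast_self, zero_mul, Finsupp.zero_apply]
  constructor
  · rintro ⟨C, hC⟩
    obtain ⟨K, hK⟩ := (sys m).small Λ
      (fun D _ => Pool.Agent.H337R3.Sid.closure_finite m (NeZero.pos m) D fun x _ => hexp x)
      h0 C hC
    obtain ⟨Q, hQ, hΛ⟩ := Pool.Agent.H337R3.Sid.finite_union (Γ := Dual m)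
      m.primeFactorsList (fun q hq => Nat.prime_of_mem_primeFactorsList hq) K Λ
      (by rw [Nat.prod_primeFactorsList (NeZero.ne m)]; exact fun x _ => hexp x) hK
    exact ⟨_, Q, hQ, hΛ⟩
  · rintro ⟨k, Q, hQ, hΛ⟩
    exact ⟨k * Real.sqrt 8, fun A a hA => (sys m).union Q hQ A a (by rw [← hΛ]; exact hA)⟩

end Pool.Agent.Results.MP_080bf7_an.SubgaussianIff
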